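import Mathlib
import Pool.Agent.X72.BKRTrees

/-! All bracketings of a BKR product can be pairwise distinct. -/

namespace Pool.Agent.Results.MP_890654_pr.DistinctBracketings

open Pool.Agent.X72.BKR

variable {α : Type*} [DecidableEq α]

theorem word_ne_nil {α : Type*} (t : BTree α) : t.word ≠ [] := by
  induction t with
  | leaf a => simp [BTree.word]
  | node l r hl hr => simp [BTree.word, hl]

/-- `i | j k` versus `i j | k` at the root -/
theorem split_ne (l r l' r' : BTree α) (i j k : α) (ht : (l.word ++ r.word).Nodup)
    (ht' : (l'.word ++ r'.word).Nodup) (hi : i ∈ l.word) (hj : j ∈ r.word) (hk : k ∈ r.word)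
    (hi' : i ∈ l'.word) (hj' : j ∈ l'.word) (hk' : k ∈ r'.word) :
    i ≠ j ∧ i ≠ k ∧ j ≠ k ∧
      (BTree.node l r).value (blk (i, j, k)) ≠ (BTree.node l' r').value (blk (i, j, k)) := by
  rw [List.nodup_append] at ht ht'
  have hij : i ≠ j := ht.2.2 i hi j hj
  have hik : i ≠ k := ht.2.2 i hi k hk
  have hjk : j ≠ k := ht'.2.2 j hj' k hk'
  have a1 : j ∉ l.word := fun h => ht.2.2 j h j hj rfl
  have a2 : k ∉ l.word := fun h => ht.2.2 k h k hk rfl
  have a3 : i ∉ r.word := fun h => ht.2.2 i hi i h rfl
  have b1 : k ∉ l'.word := fun h => ht'.2.2 k h k hk' rfl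
  have b2 : i ∉ r'.word := fun h => ht'.2.2 i hi' i h rfl
  have b3 : j ∉ r'.word := fun h => ht'.2.2 j hj' j h rfl
  refine ⟨hij, hik, hjk, fun h => ?_⟩
  have e1 : (BTree.node l r).value (blk (i, j, k)) = bkr B1 (bkr B2 B3) := by
    show bkr (l.value _) (r.value _) = _
    rw [value_blk (i, j, k) hij hik hjk l ht.1 (fun h => a1 h.2.1),
      value_blk (i, j, k) hij hik hjk r ht.2.1 (fun h => a3 h.1)]
    simp only [hi, hj, hk, a1, a2, a3, decide_true, decide_false, cls]
  have e2 : (BTree.node l' r').value (blk (i, j, k)) = bkr (bkr B1 B2) B3 := by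
    show bkr (l'.value _) (r'.value _) = _
    rw [value_blk (i, j, k) hij hik hjk l' ht'.1 (fun h => b1 h.2.2),
      value_blk (i, j, k) hij hik hjk r' ht'.2.1 (fun h => b2 h.1)]
    simp only [hi', hj', hk', b1, b2, b3, decide_true, decide_false, cls]
  rw [e1, e2] at h
  apply x0_not_mem'
  rw [bkr_comm, h]
  exact x0_mem

theorem exists_block (t : BTree α) : ∀ t' : BTree α, t ≠ t' → t.word = t'.word →
    t.word.Nodup → ∃ i j k, i ∈ t.word ∧ j ∈ t.word ∧ k ∈ t.word ∧ i ≠ j ∧ i ≠ k ∧ j ≠ k ∧
      t.value (blk (i, j, k)) ≠ t'.value (blk (i, j, k)) := by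
  induction t with
  | leaf a =>
    intro t' hne hw _
    exfalso
    cases t' with
    | leaf b =>
      apply hne
      have : a = b := by simpa [BTree.word] using hw
      rw [this]
    | node l r =>
      have h1 := congrArg List.length hw
      have h2 := List.length_pos_iff.mpr (word_ne_nil l)
      have h3 := List.length_pos_iff.mpr (word_ne_nil r)
      simp only [BTree.word, List.length_singleton, List.length_append] at h1
      omega
  | node l r hl hr =>
    intro t' hne hw hnd
    cases t' with
    | leaf b =>
      exfalso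
      have h1 := congrArg List.length hw
      have h2 := List.length_pos_iff.mpr (word_ne_nil l)
      have h3 := List.length_pos_iff.mpr (word_ne_nil r)
      simp only [BTree.word, List.length_singleton, List.length_append] at h1
      omega
    | node l' r' =>
      have hw0 : l.word ++ r.word = l'.word ++ r'.word := hw
      have hnd0 : (l.word ++ r.word).Nodup := hnd
      have hnd1 : (l'.word ++ r'.word).Nodup := hw0 ▸ hnd0
      rcases List.append_eq_append_iff.mp hw0 with ⟨m, hm1, hm2⟩ | ⟨m, hm1, hm2⟩
      · -- `l'.word = l.word ++ m`, `r.word = m ++ r'.word`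
        cases m with
        | nil =>
          have el : l.word = l'.word := by simpa using hm1.symm
          have er : r.word = r'.word := by simpa using hm2
          have hn := List.nodup_append.mp hnd0
          by_cases hll : l = l'
          · have hrr : r ≠ r' := fun h => hne (by rw [hll, h])
            obtain ⟨i, j, k, hi, hj, hk, h1, h2, h3, h4⟩ := hr r' hrr er hn.2.1
            have ni : i ∉ l.word := fun h => hn.2.2 i h i hi rfl
            have nj : j ∉ l.word := fun h => hn.2.2 j h j hj rfl
            have nk : k ∉ l.word := fun h => hn.2.2 k h k hk rfl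
            refine ⟨i, j, k, List.mem_append_right _ hi, List.mem_append_right _ hj,
              List.mem_append_right _ hk, h1, h2, h3, ?_⟩
            show bkr (l.value _) (r.value _) ≠ bkr (l'.value _) (r'.value _)
            rw [← hll, value_blk (i, j, k) h1 h2 h3 l hn.1 (fun h => ni h.1)]
            simp only [ni, nj, nk, decide_false, cls, univ_bkr]
            exact h4
          · obtain ⟨i, j, k, hi, hj, hk, h1, h2, h3, h4⟩ := hl l' hll el hn.1
            have ni : i ∉ r.word := fun h => hn.2.2 i hi i h rfl
            have nj : j ∉ r.word := fun h => hn.2.2 j hj j h rfl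
            have nk : k ∉ r.word := fun h => hn.2.2 k hk k h rfl
            refine ⟨i, j, k, List.mem_append_left _ hi, List.mem_append_left _ hj,
              List.mem_append_left _ hk, h1, h2, h3, ?_⟩
            show bkr (l.value _) (r.value _) ≠ bkr (l'.value _) (r'.value _)
            rw [value_blk (i, j, k) h1 h2 h3 r hn.2.1 (fun h => ni h.1),
              value_blk (i, j, k) h1 h2 h3 r' (er ▸ hn.2.1) (fun h => ni (er ▸ h.1))]
            rw [← er]
            simp only [ni, nj, nk, decide_false, cls, bkr_univ]
            exact h4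
        | cons c m =>
          obtain ⟨i, hi⟩ := List.exists_mem_of_ne_nil _ (word_ne_nil l)
          obtain ⟨k, hk⟩ := List.exists_mem_of_ne_nil _ (word_ne_nil r')
          have hj : c ∈ r.word := by rw [hm2]; simp
          have hk2 : k ∈ r.word := by rw [hm2]; exact List.mem_append_right _ hk
          have hi' : i ∈ l'.word := by rw [hm1]; exact List.mem_append_left _ hi
          have hj' : c ∈ l'.word := by rw [hm1]; simp
          obtain ⟨h1, h2, h3, h4⟩ := split_ne l r l' r' i c k hnd0 hnd1 hi hj hk2 hi' hj' hk
          exact ⟨i, c, k, List.mem_append_left _ hi, List.mem_append_right _ hj,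
            List.mem_append_right _ hk2, h1, h2, h3, h4⟩
      · -- `l.word = l'.word ++ m`, `r'.word = m ++ r.word`
        cases m with
        | nil =>
          have el : l.word = l'.word := by simpa using hm1
          have er : r.word = r'.word := by simpa using hm2.symm
          have hn := List.nodup_append.mp hnd0
          by_cases hll : l = l'
          · have hrr : r ≠ r' := fun h => hne (by rw [hll, h])
            obtain ⟨i, j, k, hi, hj, hk, h1, h2, h3, h4⟩ := hr r' hrr er hn.2.1
            have ni : i ∉ l.word := fun h => hn.2.2 i h i hi rfl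
            have nj : j ∉ l.word := fun h => hn.2.2 j h j hj rfl
            have nk : k ∉ l.word := fun h => hn.2.2 k h k hk rfl
            refine ⟨i, j, k, List.mem_append_right _ hi, List.mem_append_right _ hj,
              List.mem_append_right _ hk, h1, h2, h3, ?_⟩
            show bkr (l.value _) (r.value _) ≠ bkr (l'.value _) (r'.value _)
            rw [← hll, value_blk (i, j, k) h1 h2 h3 l hn.1 (fun h => ni h.1)]
            simp only [ni, nj, nk, decide_false, cls, univ_bkr]
            exact h4
          · obtain ⟨i, j, k, hi, hj, hk, h1, h2, h3, h4⟩ := hl l' hll el hn.1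
            have ni : i ∉ r.word := fun h => hn.2.2 i hi i h rfl
            have nj : j ∉ r.word := fun h => hn.2.2 j hj j h rfl
            have nk : k ∉ r.word := fun h => hn.2.2 k hk k h rfl
            refine ⟨i, j, k, List.mem_append_left _ hi, List.mem_append_left _ hj,
              List.mem_append_left _ hk, h1, h2, h3, ?_⟩
            show bkr (l.value _) (r.value _) ≠ bkr (l'.value _) (r'.value _)
            rw [value_blk (i, j, k) h1 h2 h3 r hn.2.1 (fun h => ni h.1),
              value_blk (i, j, k) h1 h2 h3 r' (er ▸ hn.2.1) (fun h => ni (er ▸ h.1))]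
            rw [← er]
            simp only [ni, nj, nk, decide_false, cls, bkr_univ]
            exact h4
        | cons c m =>
          obtain ⟨i, hi⟩ := List.exists_mem_of_ne_nil _ (word_ne_nil l')
          obtain ⟨k, hk⟩ := List.exists_mem_of_ne_nil _ (word_ne_nil r)
          have hj : c ∈ r'.word := by rw [hm2]; simp
          have hk2 : k ∈ r'.word := by rw [hm2]; exact List.mem_append_right _ hk
          have hi' : i ∈ l.word := by rw [hm1]; exact List.mem_append_left _ hi
          have hj' : c ∈ l.word := by rw [hm1]; simp
          obtain ⟨h1, h2, h3, h4⟩ := split_ne l' r' l r i c k hnd1 hnd0 hi hj hk2 hi' hj' hk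
          exact ⟨i, c, k, List.mem_append_left _ hi', List.mem_append_left _ hj',
            List.mem_append_right _ hk, h1, h2, h3, h4.symm⟩

/-- For every `r` there are a nonempty set `S`, `d ≥ 1` and `A₁, …, A_r ⊆ S^d` such that
different parenthesisations of `A₁ A₂ ⋯ A_r` have different values. -/
theorem result (r : ℕ) (hr : 3 ≤ r) : ∃ (S : Type) (_ : Nonempty S) (d : ℕ) (_ : 1 ≤ d)
    (A : Fin r → Set (Fin d → S)), ∀ t t' : BTree (Fin r), t.word = List.finRange r →
      t'.word = List.finRange r → t.value A = t'.value A → t = t' := by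
  let β : Type := Fin r × Fin r × Fin r
  let ι : Type := Σ _ : β, Fin 3
  have hne : Nonempty ι := ⟨⟨(⟨0, by omega⟩, ⟨0, by omega⟩, ⟨0, by omega⟩), 0⟩⟩
  refine ⟨Bool, ⟨true⟩, Fintype.card ι, Fintype.card_pos_iff.mpr hne,
    fun a => reidx (Fintype.equivFin ι) (prodSet fun b : β => blk b a), ?_⟩
  intro t t' ht ht' h
  by_contra hcon
  have hnd : t.word.Nodup := by rw [ht]; exact List.nodup_finRange r
  have hnd' : t'.word.Nodup := by rw [ht']; exact List.nodup_finRange r
  obtain ⟨i, j, k, -, -, -, -, -, -, hv⟩ := exists_block t t' hcon (ht.trans ht'.symm) hnd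
  rw [value_reidx, value_reidx] at h
  have h2 := reidx_inj _ h
  rw [value_prodSet (fun a (b : β) => blk b a), value_prodSet (fun a (b : β) => blk b a)] at h2
  apply hv
  apply Set.Subset.antisymm
  · exact prodSet_inj (fun b => ⟨x1, x1_mem b t hnd⟩) h2 (i, j, k)
  · exact prodSet_inj (fun b => ⟨x1, x1_mem b t' hnd'⟩) h2.symm (i, j, k)

end Pool.Agent.Results.MP_890654_pr.DistinctBracketings
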